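import Pool.Agent.Lib.MP_436e1a_gt.K.Main
import Pool.Agent.Lib.MP_436e1a_gt.C.SumEx

/-! A prime element in the connected sum monoid of closed oriented smooth 5-manifolds. -/

namespace Pool.Agent.Results.MP_436e1a_gt.PrimeFive

open Pool.Agent.CSP

/-- sanity check of the definitions: any two manifolds have a connected sum -/
theorem sum_exists (M N : Mfd) : ∃ X : Mfd, IsSum M N X := exists_sum M N

/-- There is a closed connected oriented smooth 5-manifold `P` such that no connected sum of `P` with
another manifold is homeomorphic to the 5-sphere, and whenever `P` is a summand of a connected sum of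
`M` and `N`, it is a summand of `M` or of `N`. -/
theorem result : ∃ P : Mfd,
    (∀ Y X : Mfd, IsSum P Y X → IsEmpty (X ≃ₜ Metric.sphere (0 : E 6) 1)) ∧
    ∀ M N X Y : Mfd, IsSum M N X → IsSum P Y X →
      (∃ Y' : Mfd, IsSum P Y' M) ∨ ∃ Y' : Mfd, IsSum P Y' N :=
  main

end Pool.Agent.Results.MP_436e1a_gt.PrimeFive
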